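import Pool.Agent.helper19.HF.SpecA

/-!
# Project HF (MP_bf63dc_nt), row FCB: fractional cliques, selection of the information
-/

set_option autoImplicit false

namespace Pool.Agent.HF

open Finset

/-! ## Averages -/

theorem FCB_Av_le {Ω : Type} [Fintype Ω] [Nonempty Ω] (f : Ω → ℝ) (c : ℝ) (h : ∀ ω, f ω ≤ c) : Av f ≤ c := by
  unfold Av
  have h0 : (0 : ℝ) < Fintype.card Ω := by exact_mod_cast Fintype.card_pos
  rw [div_le_iff₀ h0]
  calc ∑ ω, f ω ≤ ∑ _ω : Ω, c := Finset.sum_le_sum fun ω _ => h ω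
    _ = c * Fintype.card Ω := by
      rw [Finset.sum_const, Finset.card_univ, nsmul_eq_mul]
      ring

theorem FCB_Av_sub {Ω : Type} [Fintype Ω] (f g : Ω → ℝ) : Av (fun ω => f ω - g ω) = Av f - Av g := by
  unfold Av
  rw [Finset.sum_sub_distrib, sub_div]

theorem FCB_Av_mul {Ω : Type} [Fintype Ω] (c : ℝ) (f : Ω → ℝ) : Av (fun ω => c * f ω) = c * Av f := by
  unfold Av
  rw [← Finset.mul_sum, mul_div_assoc]

theorem FCB_Av_sum {Ω ι : Type} [Fintype Ω] (s : Finset ι) (f : ι → Ω → ℝ) : Av (fun ω => ∑ i ∈ s, f i ω) = ∑ i ∈ s, Av (f i) := by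
  unfold Av
  rw [Finset.sum_comm, Finset.sum_div]

theorem FCB_Av_if {Ω : Type} [Fintype Ω] (P : Prop) [Decidable P] (f : Ω → ℝ) : Av (fun ω => if P then 0 else f ω) = if P then 0 else Av f := by
  split_ifs
  · unfold Av
    simp
  · rfl

/-! ## The parameters -/

theorem FCB_choice (b : ℕ) (t : ℝ) (ht : 0 < t) : ∃ m n : ℕ, 1 ≤ m ∧ 1 ≤ n ∧ Real.sqrt (b / m) ≤ t ∧ 2 * Real.sqrt (2 ^ (b * m) / n) + (4 * m + 3) / n ≤ t := by
  obtain ⟨m, hm⟩ := exists_nat_ge ((b : ℝ) / t ^ 2)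
  obtain ⟨n, hn⟩ := exists_nat_ge (max ((16 * 2 ^ (b * (m + 1))) / t ^ 2) (2 * (4 * ((m + 1 : ℕ) : ℝ) + 3) / t))
  refine ⟨m + 1, n + 1, by omega, by omega, ?_, ?_⟩
  · rw [Real.sqrt_le_left ht.le, div_le_iff₀ (by positivity)]
    rw [div_le_iff₀ (by positivity)] at hm
    push_cast
    nlinarith [sq_nonneg t]
  · have h1 := (le_max_left _ _).trans hn
    have h2 := (le_max_right _ _).trans hn
    rw [div_le_iff₀ (by positivity)] at h1 h2
    have h3 : Real.sqrt (2 ^ (b * (m + 1)) / ((n + 1 : ℕ) : ℝ)) ≤ t / 4 := by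
      rw [Real.sqrt_le_left (by positivity), div_le_iff₀ (by positivity)]
      push_cast
      nlinarith [sq_nonneg t]
    have h4 : (4 * ((m + 1 : ℕ) : ℝ) + 3) / ((n + 1 : ℕ) : ℝ) ≤ t / 2 := by
      rw [div_le_iff₀ (by positivity)]
      push_cast at h2 ⊢
      nlinarith
    linarith

/-! ## The functions -/

theorem FCB_y1 (h0 : CND_stmt) {n b R r : ℕ} (X : Om n b R → Fin n → Fin b → Bool) (g : Fin r → Fin n) (h : Fin n) (β : Fin b) (c : Cl r b R × Fin R) :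
    0 ≤ y1 X g h β c ∧ y1 X g h β c ≤ 1 := by
  unfold y1
  refine h0.1 _ _ _ _ (fun ω => ?_) c
  unfold lb
  split_ifs <;> norm_num

theorem FCB_ab (h0 : CND_stmt) {n b R r : ℕ} (hn : 1 ≤ n) (X : Om n b R → Fin n → Fin b → Bool) (g : Fin r → Fin n) (c : Cl r b R) (β : Fin b) (u : Fin R) :
    0 ≤ ab X g c β u ∧ ab X g c β u ≤ 1 := by
  unfold ab
  have hn0 : (0 : ℝ) < n := by exact_mod_cast hn
  constructor
  · exact div_nonneg (Finset.sum_nonneg fun h _ => (FCB_y1 h0 X g h β (c, u)).1) hn0.le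
  · rw [div_le_one hn0]
    calc ∑ h, y1 X g h β (c, u) ≤ ∑ _h : Fin n, (1 : ℝ) := Finset.sum_le_sum fun h _ => (FCB_y1 h0 X g h β (c, u)).2
      _ = n := by simp

theorem FCB_Dl {n b R r : ℕ} (X : Om n b R → Fin n → Fin b → Bool) (g : Fin r → Fin n) : 0 ≤ Dl X g := by
  unfold Dl Av
  positivity

/-- Cauchy-Schwarz for the gains -/
theorem FCB_sqrt {n b R r m : ℕ} (X : Om n b R → Fin n → Fin b → Bool) (hD : ∑ g : Fin r → Fin n, Dl X g ≤ b / m * (n : ℝ) ^ r) :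
    ∑ g : Fin r → Fin n, Real.sqrt (Dl X g) ≤ (n : ℝ) ^ r * Real.sqrt (b / m) := by
  have h1 : (∑ g : Fin r → Fin n, Real.sqrt (Dl X g)) ^ 2 ≤ ((n : ℝ) ^ r * Real.sqrt (b / m)) ^ 2 := by
    have h2 := sq_sum_le_card_mul_sum_sq (s := (Finset.univ : Finset (Fin r → Fin n))) (f := fun g => Real.sqrt (Dl X g))
    have h3 : ∑ g : Fin r → Fin n, Real.sqrt (Dl X g) ^ 2 = ∑ g : Fin r → Fin n, Dl X g :=
      Finset.sum_congr rfl fun g _ => Real.sq_sqrt (FCB_Dl X g)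
    rw [h3, Finset.card_univ, Fintype.card_fun, Fintype.card_fin, Fintype.card_fin] at h2
    refine h2.trans ?_
    rw [mul_pow, Real.sq_sqrt (by positivity)]
    push_cast
    have h4 : (n : ℝ) ^ r * ∑ g : Fin r → Fin n, Dl X g ≤ (n : ℝ) ^ r * (b / m * (n : ℝ) ^ r) := mul_le_mul_of_nonneg_left hD (by positivity)
    refine h4.trans (le_of_eq ?_)
    ring
  exact (pow_le_pow_iff_left₀ (Finset.sum_nonneg fun g _ => Real.sqrt_nonneg _) (by positivity) two_ne_zero).1 h1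

open Classical in
theorem FCB_core (h0 : CND_stmt) (h1 : ENP_stmt) (h2 : FCA_stmt) (h3 : FCM_stmt) (n b R m : ℕ) (t ε α : ℝ) (hn : 1 ≤ n) (hb : 1 ≤ b) (hR : 1 ≤ R) (hm : 1 ≤ m)
    (hε : 0 < ε) (hε1 : ε ≤ 1) (hα : 0 ≤ α) (hmt : Real.sqrt (b / m) ≤ t) (hnt : 2 * Real.sqrt (2 ^ (b * m) / n) + (4 * m + 3) / n ≤ t)
    (htε : (1 + 2 * (b : ℝ) ^ 2 / ε) * (2 * t) = ε / 2)
    (X : Om n b R → Fin n → Fin b → Bool) (E : Fin b → Fin b → Fin R → Fin R → Prop)
    (hX : ∀ ω h h' β β', h ≠ h' → β ≠ β' → X ω h β = true → X ω h' β' = true → E β β' (ω h β) (ω h' β'))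
    (hS : (α - ε / 4) * (n * b) ≤ ∑ h, ∑ β, Av (lb X h β)) :
    ∃ a : Fin b → Fin R → ℝ, (∀ β u, 0 ≤ a β u ∧ a β u ≤ 1) ∧ (α - ε) * (b * R) ≤ ∑ β, ∑ u, a β u ∧
      ∀ β β', β ≠ β' → ∑ u, ∑ v, (if E β β' u v then 0 else a β u * a β' v) ≤ ε * (R : ℝ) ^ 2 := by
  have hn0 : (0 : ℝ) < n := by exact_mod_cast hn
  have hb0 : (0 : ℝ) < b := by exact_mod_cast hb
  have hR0 : (0 : ℝ) < R := by exact_mod_cast hR
  have hm0 : (0 : ℝ) < m := by exact_mod_cast hm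
  have : Nonempty (Fin n) := ⟨⟨0, hn⟩⟩
  have : Nonempty (Fin R) := ⟨⟨0, hR⟩⟩
  have : Nonempty (Om n b R) := ⟨fun _ _ => ⟨0, hR⟩⟩
  obtain ⟨r, hr, hD⟩ := h1 n b R m X hn hR hm
  obtain ⟨S, hSe⟩ : ∃ S : ℝ, S = ∑ h, ∑ β, Av (lb X h β) := ⟨_, rfl⟩
  rw [← hSe] at hS
  obtain ⟨Z, hZe⟩ : ∃ Z : (Fin r → Fin n) → Om n b R → ℝ, Z = fun g ω => ∑ β, (∑ u, ab X g (inf X g ω) β u) / R := ⟨_, rfl⟩
  obtain ⟨Bf, hBe⟩ : ∃ Bf : (Fin r → Fin n) → Fin b → Fin b → Om n b R → ℝ, Bf = fun g β β' ω =>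
    (∑ u, ∑ v, (if E β β' u v then 0 else ab X g (inf X g ω) β u * ab X g (inf X g ω) β' v)) / (R : ℝ) ^ 2 := ⟨_, rfl⟩
  have hpow : ∀ k : ℕ, k ≤ m → Real.sqrt (2 ^ (b * k) / n) ≤ Real.sqrt (2 ^ (b * m) / n) := by
    intro k hk
    apply Real.sqrt_le_sqrt
    apply div_le_div_of_nonneg_right _ hn0.le
    exact pow_le_pow_right₀ (by norm_num) (Nat.mul_le_mul_left b hk)
  have hrm : (r : ℝ) ≤ m := by exact_mod_cast hr.le
  have hZ : ∀ g : Fin r → Fin n, (α - ε / 4) * b - b * t ≤ Av (Z g) := by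
    intro g
    have k1 := h3 n b R r X g hn hR
    rw [← hSe] at k1
    rw [hZe]
    refine le_trans ?_ k1
    have k2 : (α - ε / 4) * b ≤ S / n := by
      rw [le_div_iff₀ hn0]
      linarith
    have k3 : Real.sqrt (2 ^ (b * r) / n) + 2 * r / n ≤ t := by
      have k4 := hpow r hr.le
      have k5 : 2 * (r : ℝ) / n ≤ (4 * m + 3) / n := div_le_div_of_nonneg_right (by linarith) hn0.le
      have k6 := Real.sqrt_nonneg (2 ^ (b * m) / (n : ℝ))
      linarith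
    have k7 := mul_le_mul_of_nonneg_left k3 hb0.le
    linarith
  have hBd : ∀ g β β', (if β = β' then 0 else Av (Bf g β β')) ≤ Real.sqrt (Dl X g) + t := by
    intro g β β'
    have t0 : 0 ≤ t := (Real.sqrt_nonneg _).trans hmt
    split_ifs with h
    · have := Real.sqrt_nonneg (Dl X g)
      linarith
    · have k1 := h2 n b R r X E g hn hR hX β β' h
      rw [hBe]
      refine k1.trans ?_
      have k4 := hpow (r + 1) hr
      have k5 : (4 * (r : ℝ) + 3) / n ≤ (4 * m + 3) / n := div_le_div_of_nonneg_right (by linarith) hn0.le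
      linarith
  have hBB : ∀ g : Fin r → Fin n, ∑ β, ∑ β', (if β = β' then 0 else Av (Bf g β β')) ≤ (b : ℝ) ^ 2 * (Real.sqrt (Dl X g) + t) := by
    intro g
    calc ∑ β, ∑ β', (if β = β' then 0 else Av (Bf g β β')) ≤ ∑ _β : Fin b, ∑ _β' : Fin b, (Real.sqrt (Dl X g) + t) :=
          Finset.sum_le_sum fun β _ => Finset.sum_le_sum fun β' _ => hBd g β β'
      _ = (b : ℝ) ^ 2 * (Real.sqrt (Dl X g) + t) := by
        simp only [Finset.sum_const, Finset.card_univ, Fintype.card_fin, nsmul_eq_mul]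
        ring
  -- the choice of `g` and `ω`
  have key : ∃ (g : Fin r → Fin n) (ω : Om n b R), (α - ε) * b ≤ Z g ω - 2 * b / ε * ∑ β, ∑ β', (if β = β' then 0 else Bf g β β' ω) := by
    by_contra hcon
    push Not at hcon
    have k1 : ∀ g : Fin r → Fin n, Av (Z g) - 2 * b / ε * ∑ β, ∑ β', (if β = β' then 0 else Av (Bf g β β')) ≤ (α - ε) * b := by
      intro g
      have k2 := FCB_Av_le _ _ (fun ω => (hcon g ω).le)
      rw [FCB_Av_sub, FCB_Av_mul, FCB_Av_sum] at k2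
      have k3 : ∀ β, Av (fun ω => ∑ β', (if β = β' then 0 else Bf g β β' ω)) = ∑ β', (if β = β' then 0 else Av (Bf g β β')) := by
        intro β
        rw [FCB_Av_sum]
        exact Finset.sum_congr rfl fun β' _ => FCB_Av_if _ _
      simp only [k3] at k2
      exact k2
    have k4 : ∀ g : Fin r → Fin n, (α - ε / 4) * b - b * t - 2 * b / ε * ((b : ℝ) ^ 2 * (Real.sqrt (Dl X g) + t)) ≤ (α - ε) * b := by
      intro g
      have k5 : 2 * b / ε * ∑ β, ∑ β', (if β = β' then 0 else Av (Bf g β β')) ≤ 2 * b / ε * ((b : ℝ) ^ 2 * (Real.sqrt (Dl X g) + t)) :=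
        mul_le_mul_of_nonneg_left (hBB g) (by positivity)
      have := k1 g
      have := hZ g
      linarith
    have k6 : ∑ g : Fin r → Fin n, ((α - ε / 4) * b - b * t - 2 * b / ε * ((b : ℝ) ^ 2 * (Real.sqrt (Dl X g) + t))) ≤ (n : ℝ) ^ r * ((α - ε) * b) := by
      calc ∑ g : Fin r → Fin n, ((α - ε / 4) * b - b * t - 2 * b / ε * ((b : ℝ) ^ 2 * (Real.sqrt (Dl X g) + t))) ≤ ∑ _g : Fin r → Fin n, (α - ε) * b :=
            Finset.sum_le_sum fun g _ => k4 g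
        _ = (n : ℝ) ^ r * ((α - ε) * b) := by
          rw [Finset.sum_const, Finset.card_univ, Fintype.card_fun, Fintype.card_fin, Fintype.card_fin, nsmul_eq_mul]
          push_cast
          ring
    have k7 : ∑ g : Fin r → Fin n, ((α - ε / 4) * b - b * t - 2 * b / ε * ((b : ℝ) ^ 2 * (Real.sqrt (Dl X g) + t))) =
        (n : ℝ) ^ r * ((α - ε / 4) * b - b * t - 2 * b / ε * ((b : ℝ) ^ 2 * t)) - 2 * b / ε * (b : ℝ) ^ 2 * ∑ g : Fin r → Fin n, Real.sqrt (Dl X g) := by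
      have k8 : ∀ g : Fin r → Fin n, (α - ε / 4) * b - b * t - 2 * b / ε * ((b : ℝ) ^ 2 * (Real.sqrt (Dl X g) + t)) =
          ((α - ε / 4) * b - b * t - 2 * b / ε * ((b : ℝ) ^ 2 * t)) - 2 * b / ε * (b : ℝ) ^ 2 * Real.sqrt (Dl X g) := by
        intro g
        ring
      rw [Finset.sum_congr rfl fun g _ => k8 g, Finset.sum_sub_distrib, ← Finset.mul_sum, Finset.sum_const, Finset.card_univ, Fintype.card_fun, Fintype.card_fin,
        Fintype.card_fin, nsmul_eq_mul]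
      push_cast
      ring
    have k9 : 2 * b / ε * (b : ℝ) ^ 2 * ∑ g : Fin r → Fin n, Real.sqrt (Dl X g) ≤ 2 * b / ε * (b : ℝ) ^ 2 * ((n : ℝ) ^ r * t) := by
      apply mul_le_mul_of_nonneg_left _ (by positivity)
      exact (FCB_sqrt X hD).trans (mul_le_mul_of_nonneg_left hmt (by positivity))
    rw [k7] at k6
    have hnr : 0 < (n : ℝ) ^ r := by positivity
    have k10 : (n : ℝ) ^ r * ((α - ε / 4) * b - b * t - 2 * b / ε * ((b : ℝ) ^ 2 * t) - 2 * b / ε * (b : ℝ) ^ 2 * t) ≤ (n : ℝ) ^ r * ((α - ε) * b) := by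
      linarith
    have k11 := le_of_mul_le_mul_left k10 hnr
    have k12 : (α - ε / 4) * b - b * t - 2 * b / ε * ((b : ℝ) ^ 2 * t) - 2 * b / ε * (b : ℝ) ^ 2 * t = b * (α - ε / 4 + t - (1 + 2 * (b : ℝ) ^ 2 / ε) * (2 * t)) := by
      ring
    have t0 : 0 ≤ t := (Real.sqrt_nonneg _).trans hmt
    rw [k12, htε] at k11
    nlinarith
  obtain ⟨g, ω, hgω⟩ := key
  have hab := fun β u => FCB_ab h0 hn X g (inf X g ω) β u
  have hBf0 : ∀ β β', 0 ≤ (if β = β' then 0 else Bf g β β' ω) := by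
    intro β β'
    split_ifs
    · exact le_rfl
    · rw [hBe]
      refine div_nonneg (Finset.sum_nonneg fun u _ => Finset.sum_nonneg fun v _ => ?_) (by positivity)
      split_ifs
      · exact le_rfl
      · exact mul_nonneg (hab β u).1 (hab β' v).1
  have hBB0 : 0 ≤ ∑ β, ∑ β', (if β = β' then 0 else Bf g β β' ω) := Finset.sum_nonneg fun β _ => Finset.sum_nonneg fun β' _ => hBf0 β β'
  have hZ1 : Z g ω ≤ b := by
    rw [hZe]
    calc ∑ β, (∑ u, ab X g (inf X g ω) β u) / R ≤ ∑ _β : Fin b, (1 : ℝ) := by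
          refine Finset.sum_le_sum fun β _ => ?_
          rw [div_le_one hR0]
          calc ∑ u, ab X g (inf X g ω) β u ≤ ∑ _u : Fin R, (1 : ℝ) := Finset.sum_le_sum fun u _ => (hab β u).2
            _ = R := by simp
      _ = b := by simp
  have hBB1 : ∑ β, ∑ β', (if β = β' then 0 else Bf g β β' ω) ≤ ε := by
    have k1 : 2 * b / ε * ∑ β, ∑ β', (if β = β' then 0 else Bf g β β' ω) ≤ 2 * b / ε * ε := by
      have k2 : 2 * (b : ℝ) / ε * ε = 2 * b := by field_simp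
      rw [k2]
      have k3 : 0 ≤ α * b := by positivity
      have k4 : ε * b ≤ 1 * b := mul_le_mul_of_nonneg_right hε1 hb0.le
      linarith
    exact le_of_mul_le_mul_left k1 (by positivity)
  refine ⟨fun β u => ab X g (inf X g ω) β u, hab, ?_, ?_⟩
  · have k1 : (α - ε) * b ≤ Z g ω := by
      have : 0 ≤ 2 * b / ε * ∑ β, ∑ β', (if β = β' then 0 else Bf g β β' ω) := mul_nonneg (by positivity) hBB0
      linarith
    rw [hZe] at k1
    have k2 : ∑ β, (∑ u, ab X g (inf X g ω) β u) / (R : ℝ) = (∑ β, ∑ u, ab X g (inf X g ω) β u) / R := by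
      rw [Finset.sum_div]
    have k3 : (α - ε) * b ≤ (∑ β, ∑ u, ab X g (inf X g ω) β u) / R := by
      rw [← k2]
      exact k1
    rw [le_div_iff₀ hR0] at k3
    rw [← mul_assoc]
    exact k3
  · intro β β' hββ
    have k1 : Bf g β β' ω ≤ ∑ β, ∑ β', (if β = β' then 0 else Bf g β β' ω) := by
      have k2 : (if β = β' then 0 else Bf g β β' ω) ≤ ∑ β', (if β = β' then 0 else Bf g β β' ω) :=
        Finset.single_le_sum (f := fun β' => if β = β' then 0 else Bf g β β' ω) (fun β'' _ => hBf0 β β'') (Finset.mem_univ β')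
      have k3 : ∑ β', (if β = β' then 0 else Bf g β β' ω) ≤ ∑ β, ∑ β', (if β = β' then 0 else Bf g β β' ω) :=
        Finset.single_le_sum (f := fun β => ∑ β', if β = β' then 0 else Bf g β β' ω) (fun β'' _ => Finset.sum_nonneg fun β' _ => hBf0 β'' β') (Finset.mem_univ β)
      rw [if_neg hββ] at k2
      exact k2.trans k3
    have k4 := k1.trans hBB1
    rw [hBe] at k4
    have k5 : (∑ u, ∑ v, (if E β β' u v then 0 else ab X g (inf X g ω) β u * ab X g (inf X g ω) β' v)) / (R : ℝ) ^ 2 ≤ ε := k4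
    rwa [div_le_iff₀ (by positivity)] at k5

theorem FCB : FCB_stmt := by
  intro h0 h1 h2 h3 b ε hb hε hε1
  classical
  have hb0 : (0 : ℝ) < b := by exact_mod_cast hb
  obtain ⟨t, ht⟩ : ∃ t : ℝ, t = ε / 4 / (1 + 2 * (b : ℝ) ^ 2 / ε) := ⟨_, rfl⟩
  have ht0 : 0 < t := by
    rw [ht]
    positivity
  have htε : (1 + 2 * (b : ℝ) ^ 2 / ε) * (2 * t) = ε / 2 := by
    rw [ht]
    have : 1 + 2 * (b : ℝ) ^ 2 / ε ≠ 0 := by positivity
    field_simp
    ring
  obtain ⟨m, n, hm, hn, hmt, hnt⟩ := FCB_choice b t ht0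
  have hn0 : (0 : ℝ) < n := by exact_mod_cast hn
  refine ⟨n, ε / 4, hn, by positivity, ?_⟩
  intro R α E hR hα hcount
  have hR0 : (0 : ℝ) < R := by exact_mod_cast hR
  have hJ : ∃ J : Om n b R → Finset (Fin n × Fin b), ∀ ω : Om n b R,
      ((∃ J' : Finset (Fin n × Fin b), α * (n * b) ≤ #J' ∧ ∀ x ∈ J', ∀ y ∈ J', x.2 ≠ y.2 → E x.2 y.2 (ω x.1 x.2) (ω y.1 y.2)) → α * (n * b) ≤ #(J ω)) ∧
      ∀ x ∈ J ω, ∀ y ∈ J ω, x.2 ≠ y.2 → E x.2 y.2 (ω x.1 x.2) (ω y.1 y.2) := by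
    have h : ∀ ω : Om n b R, ∃ J : Finset (Fin n × Fin b), ((∃ J' : Finset (Fin n × Fin b), α * (n * b) ≤ #J' ∧ ∀ x ∈ J', ∀ y ∈ J', x.2 ≠ y.2 → E x.2 y.2 (ω x.1 x.2) (ω y.1 y.2)) → α * (n * b) ≤ #J) ∧
        ∀ x ∈ J, ∀ y ∈ J, x.2 ≠ y.2 → E x.2 y.2 (ω x.1 x.2) (ω y.1 y.2) := by
      intro ω
      by_cases hω : ∃ J' : Finset (Fin n × Fin b), α * (n * b) ≤ #J' ∧ ∀ x ∈ J', ∀ y ∈ J', x.2 ≠ y.2 → E x.2 y.2 (ω x.1 x.2) (ω y.1 y.2)
      · obtain ⟨J', hJ1, hJ2⟩ := hω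
        exact ⟨J', fun _ => hJ1, hJ2⟩
      · exact ⟨∅, fun h => absurd h hω, fun x hx => absurd hx (Finset.notMem_empty x)⟩
    exact ⟨fun ω => (h ω).choose, fun ω => (h ω).choose_spec⟩
  obtain ⟨J, hJ⟩ := hJ
  -- the exceptional set
  obtain ⟨Ex, hEx⟩ : ∃ Ex : Finset (Om n b R), Ex = (Finset.univ.filter fun ω : Om n b R => ¬ ∃ J : Finset (Fin n × Fin b), α * (n * b) ≤ #J ∧
    ∀ x ∈ J, ∀ y ∈ J, x.2 ≠ y.2 → E x.2 y.2 (ω x.1 x.2) (ω y.1 y.2)) := ⟨_, rfl⟩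
  have hEc : (#Ex : ℝ) ≤ ε / 4 * (R : ℝ) ^ (n * b) := by
    rw [hEx]
    exact hcount
  have hcard : ((Fintype.card (Om n b R) : ℕ) : ℝ) = (R : ℝ) ^ (n * b) := by
    have : Fintype.card (Om n b R) = (R ^ b) ^ n := by
      simp [Fintype.card_fun]
    rw [this]
    push_cast
    rw [← pow_mul, mul_comm b n]
  have hN0 : (0 : ℝ) < (R : ℝ) ^ (n * b) := by positivity
  -- `α ≤ 1`
  have hα1 : α ≤ 1 := by
    by_contra hcon
    push Not at hcon
    have h4 : Ex = Finset.univ := by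
      rw [hEx, Finset.filter_true_of_mem]
      rintro ω - ⟨J', hJ1, -⟩
      have h5 : #J' ≤ n * b := by
        have := Finset.card_le_univ J'
        rwa [Fintype.card_prod, Fintype.card_fin, Fintype.card_fin] at this
      have h6 : (#J' : ℝ) ≤ n * b := by exact_mod_cast h5
      have h7 : (0 : ℝ) < n * b := by positivity
      nlinarith
    rw [h4, Finset.card_univ, hcard] at hEc
    nlinarith
  have hS : (α - ε / 4) * (n * b) ≤ ∑ h, ∑ β, Av (lb (fun (ω : Om n b R) h β => decide ((h, β) ∈ J ω)) h β) := by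
    have h4 : ∑ h, ∑ β, Av (lb (fun (ω : Om n b R) h β => decide ((h, β) ∈ J ω)) h β) = (∑ ω : Om n b R, (#(J ω) : ℝ)) / (R : ℝ) ^ (n * b) := by
      unfold Av
      simp only [← Finset.sum_div, hcard]
      congr 1
      have h5 : ∀ ω : Om n b R, ∑ h, ∑ β, lb (fun (ω : Om n b R) h β => decide ((h, β) ∈ J ω)) h β ω = (#(J ω) : ℝ) := by
        intro ω
        unfold lb
        simp only [decide_eq_true_eq]
        rw [← Fintype.sum_prod_type' (f := fun (h : Fin n) (β : Fin b) => if (h, β) ∈ J ω then (1 : ℝ) else 0)]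
        simp
      have h6 : ∀ h, ∑ β, ∑ ω : Om n b R, lb (fun (ω : Om n b R) h β => decide ((h, β) ∈ J ω)) h β ω = ∑ ω : Om n b R, ∑ β, lb (fun (ω : Om n b R) h β => decide ((h, β) ∈ J ω)) h β ω :=
        fun h => Finset.sum_comm
      simp only [h6]
      rw [Finset.sum_comm]
      exact Finset.sum_congr rfl fun ω _ => h5 ω
    rw [h4, le_div_iff₀ hN0]
    have h7 : (α * (n * b)) * ((R : ℝ) ^ (n * b) - #Ex) ≤ ∑ ω : Om n b R, (#(J ω) : ℝ) := by
      have h8 : (α * (n * b)) * ((R : ℝ) ^ (n * b) - #Ex) = ∑ ω ∈ Exᶜ, α * (n * b) := by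
        rw [Finset.sum_const, nsmul_eq_mul, Finset.card_compl, Nat.cast_sub (Finset.card_le_univ Ex), hcard]
        ring
      rw [h8]
      calc ∑ ω ∈ Exᶜ, α * (n * b) ≤ ∑ ω ∈ Exᶜ, (#(J ω) : ℝ) := by
            refine Finset.sum_le_sum fun ω hω => (hJ ω).1 ?_
            rw [Finset.mem_compl, hEx, Finset.mem_filter] at hω
            by_contra hcon
            exact hω ⟨Finset.mem_univ _, hcon⟩
        _ ≤ ∑ ω : Om n b R, (#(J ω) : ℝ) := Finset.sum_le_sum_of_subset_of_nonneg (Finset.subset_univ _) fun _ _ _ => Nat.cast_nonneg _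
    refine le_trans ?_ h7
    have h9 : 0 ≤ α * (n * b) := by positivity
    have h10 : (α * (n * b)) * #Ex ≤ (1 * (n * b)) * (ε / 4 * (R : ℝ) ^ (n * b)) :=
      mul_le_mul (mul_le_mul_of_nonneg_right hα1 (by positivity)) hEc (Nat.cast_nonneg _) (by positivity)
    linarith
  obtain ⟨a, ha1, ha2, ha3⟩ := FCB_core h0 h1 h2 h3 n b R m t ε α hn hb hR hm hε hε1 hα hmt hnt htε
    (fun (ω : Om n b R) h β => decide ((h, β) ∈ J ω)) (fun β β' u v => E β β' u v) (by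
      intro ω h h' β β' _ hββ hx hy
      have hx' : (h, β) ∈ J ω := by simpa using hx
      have hy' : (h', β') ∈ J ω := by simpa using hy
      exact (hJ ω).2 (h, β) hx' (h', β') hy' hββ) hS
  refine ⟨fun β u => if hu : u < R then a β ⟨u, hu⟩ else 0, ?_, ?_, ?_⟩
  · intro β u
    dsimp only
    split_ifs
    · exact ha1 β _
    · exact ⟨le_rfl, zero_le_one⟩
  · refine ha2.trans (le_of_eq ?_)
    refine Finset.sum_congr rfl fun β _ => ?_
    rw [Finset.sum_range]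
    refine Finset.sum_congr rfl fun u _ => ?_
    dsimp only
    rw [dif_pos u.2]
  · intro β β' hββ
    refine le_trans (le_of_eq ?_) (ha3 β β' hββ)
    rw [Finset.sum_range]
    refine Finset.sum_congr rfl fun u _ => ?_
    rw [Finset.sum_range]
    refine Finset.sum_congr rfl fun v _ => ?_
    dsimp only
    rw [dif_pos u.2, dif_pos v.2]

end Pool.Agent.HF
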